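import Pool.Agent.K4H38.ZO.Defs
import Pool.Agent.K4H38.SYG.Defs

/-!
# Parts of the cohomology with simple Frobenius spectrum, for classes of theories: definitions
-/

open CategoryTheory AlgebraicGeometry Polynomial

set_option linter.checkUnivs false

universe u₁ v₁ u v

namespace Pool.Agent.K4H38.ZOG

open Pool.Agent.H914 Pool.Agent.Y106.One Pool.Agent.K4H24.Adm Pool.Agent.K4H38.ZO
  Pool.Agent.K4H38.SYG VarClass Obj WeilCohomology

variable {k : Type u} [Field k] {𝒱 : VarClass k} {ops : CycleOps 𝒱}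
  {k₀ : Type u₁} [Field k₀] {𝒱₀ : VarClass k₀} {ops₀ : CycleOps 𝒱₀}

/-- The operator `T` commutes with some power `F ^ m`, `m ≥ 1`. -/
def CommutesWithPower {K : Type*} [Field K] {V : Type*} [AddCommGroup V] [Module K V]
    (T F : Module.End K V) : Prop :=
  ∃ m : ℕ, 1 ≤ m ∧ Commute T (F ^ m)

/-- The operators `z ∘ ξ ^ (n - i)` for the cycles `z` of codimension `i` on `X × X`. -/
def lefSet (W : WeilCohomology.{u, v} ops) (X : 𝒱.Obj) (D : X.Cycles) (i : ℕ) :
    Set (Module.End W.K (W.H X)) :=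
  {T | ∃ z, (X.prod X).IsCyc i z ∧ T = cycLef W X D i z}

/-- For the theory `W` every correspondence of degree zero from `X` to `X` commutes with a power
`(f^*)^m`, `m ≥ 1`, and the characteristic polynomial of `f^*` on `H^i(X)` is `P`. In the intended
use the base field is the algebraic closure of a finite field and `f` is the Frobenius endomorphism
of a model of `X` over a finite field (every cycle on `X × X` is defined over a finite extension of
this field). -/
structure FrobeniusLike (W : WeilCohomology.{u, v} ops) (X : 𝒱.Obj) (f : X ⟶ X) (i : ℕ)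
    (P : ℚ[X]) : Prop where
  comm : ∀ z, (X.prod X).IsCyc X.dim z →
    CommutesWithPower (Pool.Agent.W537.cycOp W X z) (W.map f).toLinearMap
  charpoly : HasCharpolyOn (W.gr X i) (W.map f).toLinearMap P

/-- A theory `W` in the class `S` for the variety `X`, a theory `W₀` in the class `S₀` for the
variety `X₀` (a good reduction of `X`, or `X` itself), and a comparison between them, such that the
endomorphism `f` of `X₀` is `FrobeniusLike`, with the characteristic polynomial `P`. -/
structure FrobPair {X : 𝒱.Obj} (S : WeilCohomology.{u, v} ops → Prop)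
    (S₀ : WeilCohomology.{u₁, v₁} ops₀ → Prop) (R : Reduction X 𝒱₀) (i : ℕ) (P : ℚ[X]) where
  /-- the theory for `X` -/
  W : WeilCohomology.{u, v} ops
  /-- the theory for the reduction -/
  W₀ : WeilCohomology.{u₁, v₁} ops₀
  /-- the comparison -/
  C : Comparison W X W₀ R.X₀ R.sp
  mem : S W
  mem₀ : S₀ W₀
  frob : FrobeniusLike W₀ R.X₀ R.f i P

variable {S : WeilCohomology.{u, v} ops → Prop} {S₀ : WeilCohomology.{u₁, v₁} ops₀ → Prop}

/-- The kernel of `Q(f^*)` on `H^i(X)`, where `H^i(X)` is identified with the cohomology of the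
reduction. -/
def FrobPair.part {X : 𝒱.Obj} {R : Reduction X 𝒱₀} {i : ℕ} {P : ℚ[X]}
    (Θ : FrobPair.{u₁, v₁, u, v} S S₀ R i P) (Q : ℚ[X]) : Set (Θ.W.H X) :=
  under Θ.C.s (polyPart Θ.W₀ R.X₀ R.f i Q)

/-- For all theories, the cycle `z` of codimension `i` on `X × X` induces the inverse of
`ξ ^ (n - i)` on the kernel of `g(f^*)` on `H^i(X)`, of dimension `deg g`, and all cycles of
codimension `i` on `X × X` act as zero on the image under `ξ ^ (n - i)` of the kernel of `h(f^*)`,
of dimension `deg h`. -/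
def SplitsForAll {X : 𝒱.Obj} (S : WeilCohomology.{u, v} ops → Prop)
    (S₀ : WeilCohomology.{u₁, v₁} ops₀ → Prop) (R : Reduction X 𝒱₀) (i : ℕ)
    (P : ℚ[X]) (D : X.Cycles) (z : (X.prod X).Cycles) (g h : ℚ[X]) : Prop :=
  ∀ Θ : FrobPair.{u₁, v₁, u, v} S S₀ R i P,
    Splits (Θ.part g) (Θ.part h) (cycLef Θ.W X D i z)
      (lefSet Θ.W X D i) g.natDegree h.natDegree

/-- For all theories, the cycle `z` of codimension `i` on `X × X` induces the inverse of
`ξ ^ (n - i)` on the kernel of `Q(f^*)` on `H^i(X)`. -/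
def InvertsForAll {X : 𝒱.Obj} (S : WeilCohomology.{u, v} ops → Prop)
    (S₀ : WeilCohomology.{u₁, v₁} ops₀ → Prop) (R : Reduction X 𝒱₀) (i : ℕ)
    (P : ℚ[X]) (D : X.Cycles) (z : (X.prod X).Cycles) (Q : ℚ[X]) : Prop :=
  ∀ Θ : FrobPair.{u₁, v₁, u, v} S S₀ R i P,
    IdentityOn (Θ.part Q) (cycLef Θ.W X D i z)

/-- For some theory, some cycle of codimension `i` on `X × X` does not act as zero on the image
under `ξ ^ (n - i)` of the kernel of `Q(f^*)` on `H^i(X)`. -/
def HitForOne {X : 𝒱.Obj} (S : WeilCohomology.{u, v} ops → Prop)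
    (S₀ : WeilCohomology.{u₁, v₁} ops₀ → Prop) (R : Reduction X 𝒱₀) (i : ℕ)
    (P : ℚ[X]) (D : X.Cycles) (Q : ℚ[X]) : Prop :=
  ∃ Θ : FrobPair.{u₁, v₁, u, v} S S₀ R i P,
    HitBy (Θ.part Q) (lefSet Θ.W X D i)

/-- The zero-one law and the criterion for the classes `S` and `S₀` of theories: if the
characteristic polynomial of Frobenius on `H^i(X)` is `P₀ P₁` with `Unrelated P₀ P₁` then one cycle
and polynomials with `g h = P₁` satisfy `SplitsForAll`; one cycle inverts `ξ ^ (n - i)` on `H^i(X)`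
for all theories in `S` if and only if some combination of cycles with coefficients in the
coefficient field of one theory is injective on the kernel of `P₀(f^*)` and every irreducible
factor of `P₁` is hit by a cycle in some theory; the zero-one law holds for the minimal polynomial
of an isolated root. -/
structure ZeroOne {X : 𝒱.Obj} (S : WeilCohomology.{u, v} ops → Prop)
    (S₀ : WeilCohomology.{u₁, v₁} ops₀ → Prop) (R : Reduction X 𝒱₀) (D : X.Cycles) (i : ℕ) :
    Prop where
  /-- one cycle on the factor `g`, none on the factor `h` -/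
  splits : ∀ P₀ P₁ : ℚ[X], Unrelated P₀ P₁ →
    ∃ (z : (X.prod X).Cycles) (g h : ℚ[X]), (X.prod X).IsCyc i z ∧ g * h = P₁ ∧
      SplitsForAll.{u₁, v₁, u, v} S S₀ R i (P₀ * P₁) D z g h
  /-- the criterion -/
  criterion : ∀ P₀ P₁ : ℚ[X], Unrelated P₀ P₁ →
    ∀ Θ₁ : FrobPair.{u₁, v₁, u, v} S S₀ R i (P₀ * P₁),
      (OneCycleForAll S X D i ↔
        InjectedBy (Θ₁.part P₀) (lefSet Θ₁.W X D i) ∧
          ∀ π : ℚ[X], Irreducible π → π ∣ P₁ →
            HitForOne.{u₁, v₁, u, v} S S₀ R i (P₀ * P₁) D π)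
  /-- the zero-one law for an isolated root -/
  isolated : ∀ (P : ℚ[X]) (w : AbsoluteValue ℂ ℝ) (α : ℂ), IsolatedRoot P w α →
    HitForOne.{u₁, v₁, u, v} S S₀ R i P D (minpoly ℚ α) →
      ∃ z : (X.prod X).Cycles, (X.prod X).IsCyc i z ∧
        InvertsForAll.{u₁, v₁, u, v} S S₀ R i P D z (minpoly ℚ α)

end Pool.Agent.K4H38.ZOG
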